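import Pool.Agent.W890.SF.Stm

/-!
# SAM-IND: the induction
-/

set_option autoImplicit false

namespace Pool.Agent.W503.SAM.Ind

open Finset Pool.Agent.W890.SF

/-- Bernoulli -/
theorem bern {x w p : ℝ} (hw : 0 < w) (hxw : x ≤ w) (hp0 : 0 ≤ p) (hp1 : p ≤ 1) :
    (1 - x / w) ^ p ≤ 1 - p * x / w := by
  have h1 : -1 ≤ -(x / w) := by
    have : x / w ≤ 1 := (div_le_one hw).2 hxw
    linarith
  have h2 := rpow_one_add_le_one_add_mul_self h1 hp0 hp1
  have e1 : 1 + -(x / w) = 1 - x / w := by ring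
  have e2 : 1 + p * -(x / w) = 1 - p * x / w := by ring
  rw [e1, e2] at h2
  exact h2

theorem ind (h1 : S_BAS) (h2 : S_ADD) (h3 : S_KEY) : S_IND := by
  intro ι _ b q c x w S hc
  obtain ⟨n, hn⟩ : ∃ n, n = S.card := ⟨_, rfl⟩
  induction n generalizing S with
  | zero =>
    intro hb hx hx0 hxw hw hρ
    have hS : S = ∅ := card_eq_zero.1 hn.symm
    subst hS
    obtain ⟨e1, e2, e3, e4, _⟩ := h1 ι b q c ∅ hc hb
    rw [sum_empty, sub_zero] at e4 hρ ⊢
    have hU : PU b q c ∅ = 1 := by
      have : c * 1 ≤ c * PU b q c ∅ := by linarith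
      exact le_antisymm e2 (le_of_mul_le_mul_left this hc)
    have hG : PG b q c ∅ = c := by
      rw [hU, mul_one] at e3
      exact le_antisymm e3 e4
    rw [hU, hG, mul_one] at hw
    have hwc : w = c := le_antisymm hw hρ
    rw [hG, hwc, sub_self, zero_div, Real.rpow_zero, mul_one]
  | succ n ih =>
    intro hb hx hx0 hxw hw hρ
    have hw0 : 0 < w := lt_of_lt_of_le hx0 hxw
    have hne : S.Nonempty := card_pos.1 (by omega)
    obtain ⟨x0, hx0S, hkey⟩ := h3 ι b q c S hc hb hne
    have hb' : ∀ i ∈ S.erase x0, 0 < b i ∧ 0 ≤ q i ∧ q i < 1 := fun i hi => hb i (mem_of_mem_erase hi)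
    have hx' : ∀ i ∈ S.erase x0, b i * q i ≤ x := fun i hi => hx i (mem_of_mem_erase hi)
    obtain ⟨a1, a2, a3, a4, a5⟩ := h1 ι b q c S hc hb
    obtain ⟨e1, e2, e3, e4, e5⟩ := h1 ι b q c (S.erase x0) hc hb'
    have hadd := h2 ι b q c S x0 hc hb hx0S
    have hsum := Finset.add_sum_erase S (fun i => b i * q i) hx0S
    have hmu0 : 0 ≤ b x0 * q x0 := mul_nonneg (hb x0 hx0S).1.le (hb x0 hx0S).2.1
    have hmux : b x0 * q x0 ≤ x := hx x0 hx0S
    obtain ⟨mu, hmu⟩ : ∃ mu, mu = b x0 * q x0 := ⟨_, rfl⟩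
    obtain ⟨Tt, hTt⟩ : ∃ s, s = ∑ i ∈ S.erase x0, b i * q i := ⟨_, rfl⟩
    have hSg : ∑ i ∈ S, b i * q i = mu + Tt := by rw [← hsum, hmu, hTt]
    rw [← hmu] at hadd hmu0 hmux
    rw [← hTt] at e4
    rw [hSg] at hρ ⊢
    have hwU : w * PU b q c (S.erase x0) ≤ PG b q c (S.erase x0) := by
      have g1 : w * PU b q c S * PU b q c (S.erase x0) ≤
          PG b q c S * PU b q c (S.erase x0) := mul_le_mul_of_nonneg_right hw e1.le
      have g2 : (w * PU b q c (S.erase x0)) * PU b q c S ≤
          PG b q c (S.erase x0) * PU b q c S := by linarith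
      exact le_of_mul_le_mul_right g2 a1
    have hmul : mu / x ≤ 1 := (div_le_one hx0).2 hmux
    rcases le_or_gt (c - Tt) w with hcase | hcase
    · have hIH := ih (S.erase x0) (by rw [card_erase_of_mem hx0S]; omega) hb' hx' hx0 hxw hwU
        (by rw [← hTt]; exact hcase)
      rw [← hTt] at hIH
      have g1 : PG b q c (S.erase x0) * (1 - mu / w) ≤ PG b q c S := by
        have g2 : PU b q c (S.erase x0) ≤ PG b q c (S.erase x0) / w := by
          rw [le_div_iff₀ hw0]
          linarith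
        have g3 := mul_le_mul_of_nonneg_left g2 hmu0
        have g4 : PG b q c (S.erase x0) * (1 - mu / w) =
          PG b q c (S.erase x0) - mu * (PG b q c (S.erase x0) / w) := by ring
        rw [g4]
        linarith
      have hB := bern hw0 hxw (div_nonneg hmu0 hx0.le) hmul
      have hB' : 1 - mu / x * x / w = 1 - mu / w := by
        rw [div_mul_cancel₀ _ hx0.ne']
      rw [hB'] at hB
      have hbase : 0 ≤ 1 - x / w := by
        have : x / w ≤ 1 := (div_le_one hw0).2 hxw
        linarith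
      have hexp : (w - (c - (mu + Tt))) / x = (w - (c - Tt)) / x + mu / x := by
        rw [← add_div]
        congr 1
        ring
      rw [hexp, Real.rpow_add_of_nonneg hbase (div_nonneg (by linarith) hx0.le)
        (div_nonneg hmu0 hx0.le), ← mul_assoc]
      refine le_trans ?_ g1
      exact mul_le_mul hIH hB (Real.rpow_nonneg hbase _) e5.le
    · have g1 : c - (mu + Tt) ≤ PG b q c S := by
        have g2 := mul_le_mul_of_nonneg_left e2 hmu0
        linarith
      refine le_trans ?_ g1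
      have hp0 : 0 ≤ (w - (c - (mu + Tt))) / x := div_nonneg (by linarith) hx0.le
      have hp1 : (w - (c - (mu + Tt))) / x ≤ 1 := by
        rw [div_le_one hx0]
        linarith
      have hB := bern hw0 hxw hp0 hp1
      have hB' : w * (1 - (w - (c - (mu + Tt))) / x * x / w) = c - (mu + Tt) := by
        rw [div_mul_cancel₀ _ hx0.ne']
        field_simp
        ring
      exact (mul_le_mul_of_nonneg_left hB hw0.le).trans (le_of_eq hB')

end Pool.Agent.W503.SAM.Ind
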